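import Mathlib
import Pool.Agent.H715R2.Littlewood
import Pool.Agent.H715R2.Exit

/-! # Limit sets of orbits under a cone of diagonal matrices -/

open NumberField Filter Topology Matrix

namespace Pool.Agent.R750.CV

open H715R2

set_option linter.unusedSectionVars false

variable {d : ℕ}

/-- cone orbits: large entries in `J`, small entries outside `J` -/
def OrbJ (J : Finset (Fin d)) (g : Matrix (Fin d) (Fin d) ℝ) (N : ℕ) :
    Set (Matrix (Fin d) (Fin d) ℝ) :=
  {h | ∃ (a : Fin d → ℝ) (γ : Matrix (Fin d) (Fin d) ℤ), (∀ i, 0 < a i) ∧ ∏ i, a i = 1 ∧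
    (∀ k ∈ J, (N : ℝ) ≤ a k) ∧ (∀ k, k ∉ J → (N : ℝ) * a k ≤ 1) ∧ IsUnit γ.det ∧
    h = diagonal a * g * zR γ}

/-- limit set -/
def YJ (J : Finset (Fin d)) (g : Matrix (Fin d) (Fin d) ℝ) : Set (Matrix (Fin d) (Fin d) ℝ) :=
  ⋂ N : ℕ, closure (OrbJ J g N)

lemma OrbJ_subset (J : Finset (Fin d)) (g : Matrix (Fin d) (Fin d) ℝ) (N : ℕ) :
    OrbJ J g N ⊆ Orb g := by
  rintro h ⟨a, γ, ha0, ha1, -, -, hγ, rfl⟩
  exact ⟨a, γ, ha0, ha1, hγ, rfl⟩

lemma OrbJ_anti (J : Finset (Fin d)) (g : Matrix (Fin d) (Fin d) ℝ) {N N' : ℕ} (h : N ≤ N') :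
    OrbJ J g N' ⊆ OrbJ J g N := by
  rintro x ⟨a, γ, ha0, ha1, h1, h2, hγ, rfl⟩
  have h3 : (N : ℝ) ≤ N' := by exact_mod_cast h
  exact ⟨a, γ, ha0, ha1, fun k hk => h3.trans (h1 k hk), fun k hk =>
    (mul_le_mul_of_nonneg_right h3 (ha0 k).le).trans (h2 k hk), hγ, rfl⟩

lemma YJ_closed (J : Finset (Fin d)) (g : Matrix (Fin d) (Fin d) ℝ) : IsClosed (YJ J g) :=
  isClosed_iInter fun _ => isClosed_closure

lemma YJ_subset (J : Finset (Fin d)) (g : Matrix (Fin d) (Fin d) ℝ) : YJ J g ⊆ closure (Orb g) :=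
  fun _ hh => closure_mono (OrbJ_subset J g 0) (Set.mem_iInter.1 hh 0)

lemma YJ_inv (J : Finset (Fin d)) (g : Matrix (Fin d) (Fin d) ℝ) : H715R2.Inv (YJ J g) := by
  intro h hh b δ hb0 hb1 hδ
  rw [YJ, Set.mem_iInter]
  intro N
  obtain ⟨N', hN'⟩ := exists_nat_ge (∑ k, ((N : ℝ) / b k + (N : ℝ) * b k))
  have hN'' : ∀ k, (N : ℝ) / b k ≤ N' ∧ (N : ℝ) * b k ≤ N' := by
    intro k
    have h1 : (N : ℝ) / b k + (N : ℝ) * b k ≤ ∑ k, ((N : ℝ) / b k + (N : ℝ) * b k) :=
      Finset.single_le_sum (f := fun k => (N : ℝ) / b k + (N : ℝ) * b k)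
        (fun k _ => by have := hb0 k; positivity) (Finset.mem_univ k)
    have h2 : 0 ≤ (N : ℝ) / b k := by have := hb0 k; positivity
    have h3 : 0 ≤ (N : ℝ) * b k := by have := hb0 k; positivity
    constructor <;> linarith
  have h1 : h ∈ closure (OrbJ J g N') := Set.mem_iInter.1 hh N'
  refine map_mem_closure (f := fun h : Matrix (Fin d) (Fin d) ℝ => diagonal b * h * zR δ)
    ?_ h1 ?_
  · exact (continuous_const.matrix_mul continuous_id).matrix_mul continuous_const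
  · rintro _ ⟨a, γ, ha0, ha1, h1, h2, hγ, rfl⟩
    refine ⟨fun i => b i * a i, γ * δ, fun i => mul_pos (hb0 i) (ha0 i), ?_, ?_, ?_, ?_, ?_⟩
    · rw [Finset.prod_mul_distrib, hb1, ha1, one_mul]
    · intro k hk
      have h3 : (N : ℝ) / b k ≤ a k := (hN'' k).1.trans (h1 k hk)
      rw [div_le_iff₀ (hb0 k), mul_comm] at h3
      exact h3
    · intro k hk
      have h3 : (N : ℝ) * b k * a k ≤ N' * a k :=
        mul_le_mul_of_nonneg_right (hN'' k).2 (ha0 k).le
      calc (N : ℝ) * (b k * a k) = (N : ℝ) * b k * a k := by ring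
        _ ≤ _ := h3.trans (h2 k hk)
    · rw [det_mul]; exact hγ.mul hδ
    · rw [zR_mul, ← diagonal_mul_diagonal]
      simp only [Matrix.mul_assoc]

/-- the product with the factors outside `J` replaced by at least one -/
noncomputable def FT (J : Finset (Fin d)) (g : Matrix (Fin d) (Fin d) ℝ) (x : Fin d → ℝ) : ℝ :=
  ∏ k, if k ∈ J then |(g *ᵥ x) k| else max 1 |(g *ᵥ x) k|

/-- bounded below in the cone -/
def Bd (J : Finset (Fin d)) (g : Matrix (Fin d) (Fin d) ℝ) (ν r : ℝ) : Prop :=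
  ∀ x : Fin d → ℤ, x ≠ 0 → (∀ k ∈ J, |(g *ᵥ iR x) k| ≤ r) → ν ≤ FT J g (iR x)

lemma orb_entry (g : Matrix (Fin d) (Fin d) ℝ) (a : Fin d → ℝ) (γ : Matrix (Fin d) (Fin d) ℤ)
    (m : Fin d → ℤ) (i : Fin d) :
    ((diagonal a * g * zR γ) *ᵥ iR m) i = a i * (g *ᵥ iR (γ *ᵥ m)) i := by
  rw [← mulVec_mulVec, zR_mulVec_iR, ← mulVec_mulVec, mulVec_diagonal]

/-- the inequality in the rescaled lattice -/
lemma bd_scaled {J : Finset (Fin d)} {g : Matrix (Fin d) (Fin d) ℝ} {ν r : ℝ} (hB : Bd J g ν r)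
    {a : Fin d → ℝ} (ha0 : ∀ i, 0 < a i) (ha1 : ∏ i, a i = 1) {γ : Matrix (Fin d) (Fin d) ℤ}
    (hγ : IsUnit γ.det) {m : Fin d → ℤ} (hm : m ≠ 0)
    (hr : ∀ k ∈ J, |((diagonal a * g * zR γ) *ᵥ iR m) k| ≤ r * a k) :
    ν ≤ ∏ k, if k ∈ J then |((diagonal a * g * zR γ) *ᵥ iR m) k|
      else max (a k) |((diagonal a * g * zR γ) *ᵥ iR m) k| := by
  have h1 := hB (γ *ᵥ m) (gamma_ne hγ hm) (by
    intro k hk
    have h2 := hr k hk
    rw [orb_entry, abs_mul, abs_of_pos (ha0 k), mul_comm r] at h2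
    exact le_of_mul_le_mul_left h2 (ha0 k))
  refine h1.trans (le_of_eq ?_)
  have e : FT J g (iR (γ *ᵥ m)) = (∏ i, a i) * FT J g (iR (γ *ᵥ m)) := by rw [ha1, one_mul]
  rw [e, FT, ← Finset.prod_mul_distrib]
  refine Finset.prod_congr rfl fun k _ => ?_
  rw [orb_entry, abs_mul, abs_of_pos (ha0 k)]
  split_ifs
  · rfl
  · rw [mul_max_of_nonneg _ _ (ha0 k).le, mul_one]

/-- a sequence deep in the cone -/
lemma exists_seq_YJ {J : Finset (Fin d)} {g h : Matrix (Fin d) (Fin d) ℝ} (hh : h ∈ YJ J g) :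
    ∃ hs : ℕ → Matrix (Fin d) (Fin d) ℝ, (∀ n, hs n ∈ OrbJ J g n) ∧ Tendsto hs atTop (𝓝 h) := by
  obtain ⟨U, hU⟩ := (𝓝 h).exists_antitone_basis
  have hseq : ∀ n, ∃ x ∈ OrbJ J g n, x ∈ U n := by
    intro n
    obtain ⟨x, hx1, hx2⟩ := mem_closure_iff_nhds.1 (Set.mem_iInter.1 hh n) _
      (hU.toHasBasis.mem_of_mem trivial : U n ∈ 𝓝 h)
    exact ⟨x, hx2, hx1⟩
  choose hs' hs1 hs2 using hseq
  exact ⟨hs', hs1, hU.tendsto hs2⟩

lemma cont_entry (m : Fin d → ℤ) (i : Fin d) :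
    Continuous (fun h' : Matrix (Fin d) (Fin d) ℝ => (h' *ᵥ iR m) i) := by
  unfold mulVec dotProduct
  exact continuous_finsetSum _ fun j _ => (continuous_apply_apply i j).mul continuous_const

lemma YJ_nu {J : Finset (Fin d)} {g h : Matrix (Fin d) (Fin d) ℝ} {ν r : ℝ} (hr0 : 0 < r)
    (hB : Bd J g ν r) (hh : h ∈ YJ J g) : HasNu h ν := by
  classical
  intro m hm
  obtain ⟨hs, hs1, hlim⟩ := exists_seq_YJ hh
  choose a γ ha0 ha1 haJ haN hγ hx using hs1
  have hent : ∀ k, Tendsto (fun n => |(hs n *ᵥ iR m) k|) atTop (𝓝 |(h *ᵥ iR m) k|) := fun k =>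
    (((cont_entry m k).tendsto h).comp hlim).abs
  have haz : ∀ k, k ∉ J → Tendsto (fun n => a n k) atTop (𝓝 0) := by
    intro k hk
    refine squeeze_zero' (Eventually.of_forall fun n => (ha0 n k).le) ?_
      tendsto_inv_atTop_nhds_zero_nat
    filter_upwards [eventually_gt_atTop 0] with n hn
    have hn' : (0 : ℝ) < n := by exact_mod_cast hn
    have h1 := haN n k hk
    rw [← one_div, le_div_iff₀ hn', mul_comm]
    exact h1
  have hP : Tendsto (fun n => ∏ k, if k ∈ J then |(hs n *ᵥ iR m) k|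
      else max (a n k) |(hs n *ᵥ iR m) k|) atTop (𝓝 (∏ k, |(h *ᵥ iR m) k|)) := by
    refine tendsto_finsetProd _ fun k _ => ?_
    by_cases hk : k ∈ J
    · simp only [if_pos hk]
      exact hent k
    · simp only [if_neg hk]
      have h1 := (haz k hk).max (hent k)
      rwa [max_eq_right (abs_nonneg _)] at h1
  have hev : ∀ᶠ n in atTop, ν ≤ ∏ k, if k ∈ J then |(hs n *ᵥ iR m) k|
      else max (a n k) |(hs n *ᵥ iR m) k| := by
    obtain ⟨N, hN⟩ := exists_nat_gt ((∑ i, |(h *ᵥ iR m) i| + 1) / r)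
    have h2 : ∀ᶠ n in atTop, ∀ k, |(hs n *ᵥ iR m) k| < ∑ i, |(h *ᵥ iR m) i| + 1 := by
      refine Filter.eventually_all.2 fun k => (hent k).eventually (gt_mem_nhds ?_)
      have := Finset.single_le_sum (f := fun i => |(h *ᵥ iR m) i|) (fun i _ => abs_nonneg _)
        (Finset.mem_univ k)
      linarith
    filter_upwards [h2, eventually_ge_atTop N] with n hn1 hn2
    have h3 := bd_scaled hB (ha0 n) (ha1 n) (hγ n) hm (by
      intro k hk
      rw [← hx n]
      have h4 : (N : ℝ) ≤ n := by exact_mod_cast hn2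
      have h5 := (h4.trans (haJ n k hk))
      rw [div_lt_iff₀ hr0] at hN
      have h6 : (N : ℝ) * r ≤ a n k * r := mul_le_mul_of_nonneg_right h5 hr0.le
      have h7 := hn1 k
      linarith)
    rw [← hx n] at h3
    exact h3
  have h1 := ge_of_tendsto hP hev
  rw [FF_eq, Finset.abs_prod]
  exact h1

lemma exists_cone_point {J : Finset (Fin d)} (hJ : J.Nonempty) (hJ' : J ≠ Finset.univ) (s : ℝ)
    (hs : 1 ≤ s) : ∃ a : Fin d → ℝ, (∀ i, 0 < a i) ∧ ∏ i, a i = 1 ∧ (∀ k ∈ J, s ≤ a k) ∧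
      ∀ k, k ∉ J → a k ≤ s⁻¹ := by
  classical
  have hs0 : 0 < s := by linarith
  have hJc : 0 < Jᶜ.card := by
    rw [Finset.card_pos, Finset.nonempty_iff_ne_empty]
    intro h
    exact hJ' (Finset.compl_eq_empty_iff _ |>.1 h)
  refine ⟨fun k => if k ∈ J then s ^ Jᶜ.card else (s ^ J.card)⁻¹, ?_, ?_, ?_, ?_⟩
  · intro i
    dsimp only
    split_ifs <;> positivity
  · rw [Finset.prod_ite, Finset.prod_const, Finset.prod_const]
    have h1 : (Finset.univ.filter fun k => k ∈ J) = J := by ext k; simp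
    have h2 : (Finset.univ.filter fun k => k ∉ J) = Jᶜ := by ext k; simp
    rw [h1, h2, ← pow_mul, inv_pow, ← pow_mul, mul_comm Jᶜ.card]
    exact mul_inv_cancel₀ (by positivity)
  · intro k hk
    dsimp only
    rw [if_pos hk]
    calc s = s ^ 1 := (pow_one s).symm
      _ ≤ s ^ Jᶜ.card := pow_le_pow_right₀ hs hJc
  · intro k hk
    dsimp only
    rw [if_neg hk]
    refine inv_anti₀ hs0 ?_
    calc s = s ^ 1 := (pow_one s).symm
      _ ≤ s ^ J.card := pow_le_pow_right₀ hs (Finset.card_pos.2 hJ)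

lemma YJ_nonempty (hd : 0 < d) {J : Finset (Fin d)} (hJ : J.Nonempty) (hJ' : J ≠ Finset.univ)
    {g : Matrix (Fin d) (Fin d) ℝ} (hg : g.det ≠ 0) {ν r : ℝ} (hν : 0 < ν) (hr0 : 0 < r)
    (hB : Bd J g ν r) : (YJ J g).Nonempty := by
  classical
  obtain ⟨ρ, R, hρ, hR⟩ := exists_bound_loc hd |g.det| ν (abs_pos.2 hg) hν
  set A : ℝ := (1 + ρ) ^ d / ν + ρ / r + 1 with hA
  have hA1 : 1 ≤ A := by
    have h1 : 0 ≤ (1 + ρ) ^ d / ν := by positivity
    have h2 : 0 ≤ ρ / r := by positivity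
    rw [hA]; linarith
  have hstep : ∀ n : ℕ, ∃ x ∈ OrbJ J g n, ∀ i j, |x i j| ≤ R := by
    intro n
    obtain ⟨a, ha0, ha1, haJ, haJ'⟩ := exists_cone_point hJ hJ' (A + n)
      (by have : (0 : ℝ) ≤ n := Nat.cast_nonneg _; linarith)
    have hn0 : (0 : ℝ) ≤ n := Nat.cast_nonneg _
    have hs0 : 0 < A + n := by linarith
    obtain ⟨γ, hγ, hγR⟩ := hR (diagonal a * g)
      (by rw [det_mul, det_diagonal, ha1, one_mul]) (by
      intro m hm hb
      have h1 : diagonal a * g * zR (1 : Matrix (Fin d) (Fin d) ℤ) = diagonal a * g := by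
        rw [zR_one, Matrix.mul_one]
      have h2 := bd_scaled hB ha0 ha1 (γ := 1) (by simp) hm (by
        intro k hk
        rw [h1]
        refine (hb k).trans ?_
        have h3 : ρ / r ≤ a k := by
          refine le_trans ?_ (haJ k hk)
          have : 0 ≤ (1 + ρ) ^ d / ν := by positivity
          rw [hA]; linarith
        rw [div_le_iff₀ hr0] at h3
        linarith)
      rw [h1] at h2
      -- the entries outside `J` are not small
      have h3 : ∀ k, k ∉ J → a k < |((diagonal a * g) *ᵥ iR m) k| := by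
        intro k hk
        by_contra hcon
        push Not at hcon
        have h4 : ∀ l, (if l ∈ J then |((diagonal a * g) *ᵥ iR m) l|
            else max (a l) |((diagonal a * g) *ᵥ iR m) l|) ≤ 1 + ρ := by
          intro l
          have h5 := hb l
          split_ifs with hl
          · linarith
          · refine max_le ?_ (by linarith)
            have h6 := haJ' l hl
            have h7 : (A + n)⁻¹ ≤ 1 := inv_le_one_of_one_le₀ (by linarith)
            linarith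
        have h5 : ∏ l, (if l ∈ J then |((diagonal a * g) *ᵥ iR m) l|
            else max (a l) |((diagonal a * g) *ᵥ iR m) l|) ≤ a k * (1 + ρ) ^ d := by
          rw [← Finset.mul_prod_erase _ _ (Finset.mem_univ k), if_neg hk, max_eq_left hcon]
          refine mul_le_mul_of_nonneg_left ?_ (ha0 k).le
          calc ∏ l ∈ Finset.univ.erase k, (if l ∈ J then |((diagonal a * g) *ᵥ iR m) l|
                else max (a l) |((diagonal a * g) *ᵥ iR m) l|)
              ≤ ∏ _l ∈ Finset.univ.erase k, (1 + ρ) := by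
                refine Finset.prod_le_prod (fun l _ => ?_) fun l _ => h4 l
                split_ifs
                · exact abs_nonneg _
                · exact le_max_of_le_right (abs_nonneg _)
            _ = (1 + ρ) ^ (d - 1) := by
                rw [Finset.prod_const, Finset.card_erase_of_mem (Finset.mem_univ k),
                  Finset.card_univ, Fintype.card_fin]
            _ ≤ (1 + ρ) ^ d := pow_le_pow_right₀ (by linarith) (by omega)
        have h6 : a k * (1 + ρ) ^ d < ν := by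
          have h7 := haJ' k hk
          have h8 : (1 + ρ) ^ d / ν < A + n := by
            have : 0 ≤ ρ / r := by positivity
            rw [hA]; linarith
          rw [div_lt_iff₀ hν] at h8
          calc a k * (1 + ρ) ^ d ≤ (A + n)⁻¹ * (1 + ρ) ^ d :=
                mul_le_mul_of_nonneg_right h7 (by positivity)
            _ < (A + n)⁻¹ * ((A + n) * ν) := mul_lt_mul_of_pos_left h8 (by positivity)
            _ = ν := by field_simp
        linarith
      rw [FF_eq, Finset.abs_prod]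
      refine h2.trans (le_of_eq (Finset.prod_congr rfl fun k _ => ?_))
      split_ifs with hk
      · rfl
      · exact max_eq_right (h3 k hk).le)
    refine ⟨_, ⟨a, γ, ha0, ha1, fun k hk => ?_, fun k hk => ?_, hγ, rfl⟩, hγR⟩
    · have := haJ k hk
      linarith
    · have h1 := haJ' k hk
      calc (n : ℝ) * a k ≤ (A + n) * (A + n)⁻¹ :=
            mul_le_mul (by linarith) h1 (ha0 k).le hs0.le
        _ = 1 := mul_inv_cancel₀ hs0.ne'
  choose x hx hxR using hstep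
  obtain ⟨h, -, φ, hφ, hlim⟩ := (isCompact_box (d := d) R).tendsto_subseq hxR
  refine ⟨h, Set.mem_iInter.2 fun N => ?_⟩
  refine mem_closure_of_tendsto hlim ?_
  filter_upwards [eventually_ge_atTop N] with n hn
  exact OrbJ_anti _ _ (hn.trans (hφ.le_apply)) (hx (φ n))

/-- the limit values of the absolute value of the form in the cone -/
def LimVal (J : Finset (Fin d)) (g : Matrix (Fin d) (Fin d) ℝ) : Set ℝ :=
  {t | ∀ (ε : ℝ) (N : ℕ), 0 < ε → ∃ x : Fin d → ℤ, (∀ k ∈ J, |(g *ᵥ iR x) k| < ε) ∧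
    (∀ k, k ∉ J → (N : ℝ) < |(g *ᵥ iR x) k|) ∧ |(|FF g (iR x)| - t)| < ε}

lemma limVal_of_YJ {J : Finset (Fin d)} {g h : Matrix (Fin d) (Fin d) ℝ} {ν : ℝ} (hν : 0 < ν)
    (hh : h ∈ YJ J g) (hnu : HasNu h ν) {m : Fin d → ℤ} (hm : m ≠ 0) :
    |FF h (iR m)| ∈ LimVal J g := by
  classical
  intro ε N hε
  obtain ⟨hs, hs1, hlim⟩ := exists_seq_YJ hh
  choose a γ ha0 ha1 haJ haN hγ hx using hs1
  have hent : ∀ k, Tendsto (fun n => |(hs n *ᵥ iR m) k|) atTop (𝓝 |(h *ᵥ iR m) k|) := fun k =>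
    (((cont_entry m k).tendsto h).comp hlim).abs
  have hpos : ∀ k, 0 < |(h *ᵥ iR m) k| := by
    intro k
    rw [abs_pos]
    intro h0
    have h1 := hnu m hm
    rw [FF_eq, Finset.prod_eq_zero (Finset.mem_univ k) h0, abs_zero] at h1
    exact absurd h1 (not_le.2 hν)
  have hFF : Tendsto (fun n => |FF (hs n) (iR m)|) atTop (𝓝 |FF h (iR m)|) :=
    (((continuous_FF (iR m)).tendsto h).comp hlim).abs
  have e1 : ∀ᶠ n in atTop, |(|FF (hs n) (iR m)| - |FF h (iR m)|)| < ε := by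
    have h1 : Tendsto (fun n => |(|FF (hs n) (iR m)| - |FF h (iR m)|)|) atTop (𝓝 0) := by
      have := (hFF.sub_const |FF h (iR m)|).abs
      rwa [sub_self, abs_zero] at this
    exact h1.eventually (gt_mem_nhds hε)
  have e2 : ∀ᶠ n in atTop, ∀ k, |(hs n *ᵥ iR m) k| < 2 * |(h *ᵥ iR m) k| ∧
      |(h *ᵥ iR m) k| / 2 < |(hs n *ᵥ iR m) k| := by
    refine Filter.eventually_all.2 fun k => ?_
    have := hpos k
    exact ((hent k).eventually (gt_mem_nhds (by linarith))).and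
      ((hent k).eventually (lt_mem_nhds (by linarith)))
  have e3 : ∀ᶠ n : ℕ in atTop, ∀ k, 2 * |(h *ᵥ iR m) k| / ε < n ∧
      (N : ℝ) / (|(h *ᵥ iR m) k| / 2) < n := by
    refine Filter.eventually_all.2 fun k => ?_
    exact (tendsto_natCast_atTop_atTop.eventually_gt_atTop _).and
      (tendsto_natCast_atTop_atTop.eventually_gt_atTop _)
  obtain ⟨n, hn1, hn2, hn3, hn0⟩ := (e1.and (e2.and (e3.and (eventually_gt_atTop 0)))).exists
  have hnR : (0 : ℝ) < n := by exact_mod_cast hn0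
  refine ⟨γ n *ᵥ m, fun k hk => ?_, fun k hk => ?_, ?_⟩
  · have h1 := (hn2 k).1
    rw [hx n, orb_entry, abs_mul, abs_of_pos (ha0 n k)] at h1
    have h2 := (hn3 k).1
    rw [div_lt_iff₀ hε] at h2
    have h3 : (n : ℝ) * ε ≤ a n k * ε := mul_le_mul_of_nonneg_right (haJ n k hk) hε.le
    have h4 : a n k * |(g *ᵥ iR (γ n *ᵥ m)) k| < a n k * ε := by linarith
    exact lt_of_mul_lt_mul_left h4 (ha0 n k).le
  · have h1 := (hn2 k).2
    rw [hx n, orb_entry, abs_mul, abs_of_pos (ha0 n k)] at h1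
    have h2 := (hn3 k).2
    have h0 := hpos k
    rw [div_lt_iff₀ (by linarith)] at h2
    have h3 := haN n k hk
    have h4 : (n : ℝ) * (a n k * |(g *ᵥ iR (γ n *ᵥ m)) k|) ≤ |(g *ᵥ iR (γ n *ᵥ m)) k| := by
      calc (n : ℝ) * (a n k * |(g *ᵥ iR (γ n *ᵥ m)) k|)
          = (n : ℝ) * a n k * |(g *ᵥ iR (γ n *ᵥ m)) k| := by ring
        _ ≤ 1 * |(g *ᵥ iR (γ n *ᵥ m)) k| := mul_le_mul_of_nonneg_right h3 (abs_nonneg _)
        _ = _ := one_mul _
    have h5 := mul_lt_mul_of_pos_left h1 hnR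
    linarith
  · rw [hx n, FF_orb (ha1 n)] at hn1
    exact hn1

end Pool.Agent.R750.CV
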