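import Mathlib
import Pool.Agent.R750.CV.Cone

/-! # Countably many limit values in a cone -/

open NumberField Filter Topology Matrix

namespace Pool.Agent.R750.CV

open H715R2

set_option linter.unusedSectionVars false

variable {d : ℕ}

/-- directions in the cone -/
lemma exists_theta_cone (hd : 0 < d) {J : Finset (Fin d)} (hJ : J.Nonempty)
    (hJ' : J ≠ Finset.univ) {i k : Fin d} (hik : i ≠ k) (hbad : ¬ (i ∉ J ∧ k ∈ J)) :
    ∃ θ : Fin d → ℝ, Function.Injective θ ∧ ∑ j, θ j = 0 ∧ θ i < θ k ∧ (∀ j ∈ J, θ j < 0) ∧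
      ∀ j, j ∉ J → 0 < θ j := by
  classical
  obtain ⟨w, hw1, hw2, hw3⟩ := exists_theta hd i k hik
  have hJ0 : (0 : ℝ) < J.card := by exact_mod_cast Finset.card_pos.2 hJ
  have hJc : (0 : ℝ) < Jᶜ.card := by
    have : 0 < Jᶜ.card := by
      rw [Finset.card_pos, Finset.nonempty_iff_ne_empty]
      intro h
      exact hJ' (Finset.compl_eq_empty_iff _ |>.1 h)
    exact_mod_cast this
  have hdR : (0 : ℝ) < d := by exact_mod_cast hd
  have hJd : (J.card : ℝ) ≤ d := by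
    have := Finset.card_le_univ J
    rw [Fintype.card_fin] at this
    exact_mod_cast this
  have hJcd : (Jᶜ.card : ℝ) ≤ d := by
    have := Finset.card_le_univ Jᶜ
    rw [Fintype.card_fin] at this
    exact_mod_cast this
  set W : ℝ := 1 + ∑ j, |w j| with hW
  have hWj : ∀ j, |w j| < W := by
    intro j
    have := Finset.single_le_sum (f := fun j => |w j|) (fun j _ => abs_nonneg _)
      (Finset.mem_univ j)
    rw [hW]; linarith
  have hW0 : 0 < W := lt_of_le_of_lt (abs_nonneg _) (hWj i)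
  set η : ℝ := 1 / (d * W) with hη
  have hη0 : 0 < η := by positivity
  have hηw : ∀ j, |η * w j| < 1 / d := by
    intro j
    rw [abs_mul, abs_of_pos hη0, hη, one_div_mul_eq_div, div_lt_div_iff₀ (by positivity) hdR]
    have := mul_lt_mul_of_pos_left (hWj j) hdR
    linarith
  set θ : Fin d → ℝ := fun j => (if j ∈ J then -(1 / (J.card : ℝ)) else 1 / (Jᶜ.card : ℝ)) +
    η * w j with hθ
  have hneg : ∀ j ∈ J, θ j < 0 := by
    intro j hj
    simp only [hθ, if_pos hj]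
    have h1 := (abs_lt.1 (hηw j)).2
    have h2 : 1 / (d : ℝ) ≤ 1 / (J.card : ℝ) := one_div_le_one_div_of_le hJ0 hJd
    linarith
  have hpos : ∀ j, j ∉ J → 0 < θ j := by
    intro j hj
    simp only [hθ, if_neg hj]
    have h1 := (abs_lt.1 (hηw j)).1
    have h2 : 1 / (d : ℝ) ≤ 1 / (Jᶜ.card : ℝ) := one_div_le_one_div_of_le hJc hJcd
    linarith
  refine ⟨θ, ?_, ?_, ?_, hneg, hpos⟩
  · intro j l hjl
    by_cases hj : j ∈ J
    · by_cases hl : l ∈ J
      · simp only [hθ, if_pos hj, if_pos hl] at hjl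
        exact hw1 (mul_left_cancel₀ hη0.ne' (add_left_cancel hjl))
      · have h1 := hneg j hj
        have h2 := hpos l hl
        rw [hjl] at h1
        linarith
    · by_cases hl : l ∈ J
      · have h1 := hneg l hl
        have h2 := hpos j hj
        rw [hjl] at h2
        linarith
      · simp only [hθ, if_neg hj, if_neg hl] at hjl
        exact hw1 (mul_left_cancel₀ hη0.ne' (add_left_cancel hjl))
  · simp only [hθ]
    rw [Finset.sum_add_distrib, ← Finset.mul_sum, hw2, mul_zero, add_zero, Finset.sum_ite,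
      Finset.sum_const, Finset.sum_const]
    have h1 : (Finset.univ.filter fun k => k ∈ J) = J := by ext k; simp
    have h2 : (Finset.univ.filter fun k => k ∉ J) = Jᶜ := by ext k; simp
    rw [h1, h2, nsmul_eq_mul, nsmul_eq_mul]
    field_simp
    ring
  · by_cases hi : i ∈ J
    · by_cases hk : k ∈ J
      · simp only [hθ, if_pos hi, if_pos hk]
        have := mul_lt_mul_of_pos_left hw3 hη0
        linarith
      · exact (hneg i hi).trans (hpos k hk)
    · by_cases hk : k ∈ J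
      · exact absurd ⟨hi, hk⟩ hbad
      · simp only [hθ, if_neg hi, if_neg hk]
        have := mul_lt_mul_of_pos_left hw3 hη0
        linarith

/-- **Isolation in a cone.** -/
theorem cone_isolation (hd : 3 ≤ d) {J : Finset (Fin d)} (hJ : J.Nonempty)
    (hJ' : J ≠ Finset.univ) {g h : Matrix (Fin d) (Fin d) ℝ} (hg : g.det ≠ 0) {ν r : ℝ}
    (hν : 0 < ν) (hr0 : 0 < r) (hB : Bd J g ν r) (hh : h ∈ YJ J g) (i₀ : Fin d) (s : ℝ)
    (hs : s ≠ 0) (K : IntermediateField ℚ ℝ) [FiniteDimensional ℚ K]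
    (hK : Module.finrank ℚ K ≤ d) (hmem : ∀ j, s * h i₀ j ∈ K) :
    ∃ h₁ P : Matrix (Fin d) (Fin d) ℝ, PropInt h₁ ∧ (∃ ν₁ : ℝ, 0 < ν₁ ∧ HasNu h₁ ν₁) ∧
      g = P * h₁ ∧ ∀ k l, k ≠ l → ¬ (k ∉ J ∧ l ∈ J) → P k l = 0 := by
  classical
  have hd0 : 0 < d := by omega
  have hnu : HasNu h ν := YJ_nu hr0 hB hh
  have hdet : |h.det| = |g.det| := abs_det_closure (YJ_subset _ _ hh)
  have hV0 : 0 < |g.det| := abs_pos.2 hg
  have hdet0 : h.det ≠ 0 := by
    intro h0
    rw [h0, abs_zero] at hdet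
    exact hV0.ne hdet
  have hnotdense : ∀ h' ∈ YJ J g, VV h' ≠ Set.univ := by
    intro h' hh' hV
    obtain ⟨x, hx, hx2⟩ := dense_ne hd0 hV 0 ν hν
    rw [sub_zero] at hx2
    exact absurd (YJ_nu hr0 hB hh' x hx) (not_le.2 hx2)
  obtain ⟨_, D, hD⟩ := build_dat hd h hdet0 i₀ s hs K hK hmem (by
    intro m hm
    by_contra hne
    have h1 := hnu m hne
    have h2 : FF h (iR m) = 0 := by
      rw [FF]
      exact Finset.prod_eq_zero (Finset.mem_univ i₀) hm
    rw [h2, abs_zero] at h1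
    exact absurd h1 (not_le.2 hν))
  rcases D.monomial_or_dense with hmono | hdense
  swap
  · have h1 : VV D.g = Set.univ := hdense
    rw [hD] at h1
    exact absurd h1 (hnotdense h hh)
  choose t ht using hmono
  have hbij := D.mono_bij t ht
  obtain ⟨B, c, hBc, hc0, hgB, hBdet, hreal⟩ := D.mono_matrix t ht
  have hBu : IsUnit B.det := isUnit_iff_ne_zero.2 hBdet
  rw [hD] at hgB
  obtain ⟨hs', hs1, hlim⟩ := exists_seq_YJ hh
  set E : ℕ → Matrix (Fin d) (Fin d) ℝ := fun n => hs' n * B⁻¹ with hE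
  have hEB : ∀ n, E n * B = hs' n := by
    intro n
    simp only [hE]
    rw [Matrix.mul_assoc, Matrix.nonsing_inv_mul _ hBu, Matrix.mul_one]
  have hdetn : ∀ n, |(hs' n).det| = |g.det| := fun n =>
    abs_det_orb (OrbJ_subset _ _ _ (hs1 n))
  -- some term has no entry at a bad place
  have hgood : ∃ n, ∀ k l, k ≠ l → ¬ (k ∉ J ∧ l ∈ J) → E n k l = 0 := by
    by_contra hcon
    push Not at hcon
    obtain ⟨⟨i₁, k₁⟩, hfreq⟩ : ∃ p : Fin d × Fin d, ∃ᶠ n in atTop, p.1 ≠ p.2 ∧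
        ¬ (p.1 ∉ J ∧ p.2 ∈ J) ∧ E n p.1 p.2 ≠ 0 := by
      by_contra hcon2
      rw [not_exists] at hcon2
      have h1 : ∀ᶠ n in atTop, ∀ p : Fin d × Fin d, ¬ (p.1 ≠ p.2 ∧
          ¬ (p.1 ∉ J ∧ p.2 ∈ J) ∧ E n p.1 p.2 ≠ 0) :=
        Filter.eventually_all.2 fun p => not_frequently.1 (hcon2 p)
      obtain ⟨n, hn⟩ := h1.exists
      obtain ⟨k, l, h2, h3, h4⟩ := hcon n
      exact hn (k, l) ⟨h2, fun h => h3 h.1 h.2, h4⟩
    simp only at hfreq
    obtain ⟨hik1, hbad1, -⟩ := hfreq.exists.choose_spec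
    obtain ⟨θ, hθinj, hθsum, hθlt, hθJ, hθJ'⟩ := exists_theta_cone hd0 hJ hJ' hik1 hbad1
    obtain ⟨h', φ, a, γ, T, R, hφ, ha0, ha1, hγ, hT0, haT, hlim', hV⟩ :=
      exit_lemma D t hbij hreal B c hBc hc0 hBdet hs' (by rw [← hgB]; exact hlim) |g.det| hV0
        hdetn i₁ k₁ (hfreq.mono fun n hn => hn.2.2) θ hθinj hθsum hθlt
    refine hnotdense h' ?_ hV
    rw [YJ, Set.mem_iInter]
    intro N
    refine mem_closure_of_tendsto hlim' ?_
    obtain ⟨N₁, hN₁⟩ := exists_nat_ge ((N : ℝ) * Real.exp R)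
    filter_upwards [eventually_ge_atTop N₁] with n hn
    obtain ⟨b, δ, hb0, hb1, hbJ, hbJ', hδ, hx⟩ := hs1 (φ n)
    have hφn : (N : ℝ) * Real.exp R ≤ (φ n : ℝ) := by
      refine hN₁.trans ?_
      exact_mod_cast hn.trans hφ.le_apply
    have hlow : ∀ i, θ i ≤ 0 → Real.exp (-R) ≤ a n i := by
      intro i hi
      rw [← Real.exp_log (ha0 n i)]
      apply Real.exp_le_exp.2
      have h1 := (abs_le.1 (haT n i)).1
      have h2 : T n * θ i ≤ 0 := mul_nonpos_of_nonneg_of_nonpos (hT0 n) hi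
      linarith
    have hupp : ∀ i, 0 ≤ θ i → a n i ≤ Real.exp R := by
      intro i hi
      rw [← Real.exp_log (ha0 n i)]
      apply Real.exp_le_exp.2
      have h1 := (abs_le.1 (haT n i)).2
      have h2 : 0 ≤ T n * θ i := mul_nonneg (hT0 n) hi
      linarith
    refine ⟨fun i => a n i * b i, δ * γ n, fun i => mul_pos (ha0 n i) (hb0 i), ?_, ?_, ?_, ?_, ?_⟩
    · rw [Finset.prod_mul_distrib, ha1, hb1, one_mul]
    · intro k hk
      have h1 : Real.exp (-R) * ((N : ℝ) * Real.exp R) = N := by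
        rw [mul_comm, mul_assoc, ← Real.exp_add, add_neg_cancel, Real.exp_zero, mul_one]
      rw [← h1]
      exact mul_le_mul (hlow k (hθJ k hk).le) (hφn.trans (hbJ k hk)) (by positivity) (ha0 n k).le
    · intro k hk
      have h1 := hupp k (hθJ' k hk).le
      calc (N : ℝ) * (a n k * b k) = ((N : ℝ) * a n k) * b k := by ring
        _ ≤ ((N : ℝ) * Real.exp R) * b k :=
            mul_le_mul_of_nonneg_right (mul_le_mul_of_nonneg_left h1 (Nat.cast_nonneg _))
              (hb0 k).le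
        _ ≤ (φ n : ℝ) * b k := mul_le_mul_of_nonneg_right hφn (hb0 k).le
        _ ≤ 1 := hbJ' k hk
    · rw [det_mul]; exact hδ.mul (hγ n)
    · rw [zR_mul, ← diagonal_mul_diagonal, hx]
      simp only [Matrix.mul_assoc]
  obtain ⟨n, hn⟩ := hgood
  obtain ⟨a, γ, ha0, ha1, -, -, hγ, hx⟩ := hs1 n
  have hγ1 : IsUnit (γ⁻¹).det := by
    rw [Matrix.det_nonsing_inv]
    exact hγ.ringInverse
  -- the integral form
  have hcprod : ∏ k, c k ≠ 0 := Finset.prod_ne_zero_iff.2 fun k _ => hc0 k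
  refine ⟨B * zR γ⁻¹, diagonal (fun k => (a k)⁻¹) * E n, ?_, ⟨ν / |∏ k, c k|,
    div_pos hν (abs_pos.2 hcprod), ?_⟩, ?_, ?_⟩
  · refine norm_form hd0 (fun j => ∑ k, ((γ⁻¹ k j : ℤ) : ℚ) • D.b k) t hbij
      (fun _ => 1) _ ?_ fun i j => ?_
    · rw [det_mul, det_zR]
      refine mul_ne_zero hBdet ?_
      exact_mod_cast hγ1.ne_zero
    · rw [map_sum, one_mul, Matrix.mul_apply]
      push_cast
      refine Finset.sum_congr rfl fun k _ => ?_
      rw [hBc, Algebra.smul_def, map_mul]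
      simp [zR, mul_comm]
  · intro m hm
    have h1 := hnu (γ⁻¹ *ᵥ m) (gamma_ne hγ1 hm)
    rw [hgB, FF_diag_mul, abs_mul] at h1
    rw [FF_mul, zR_mulVec_iR, div_le_iff₀ (abs_pos.2 hcprod), mul_comm]
    exact h1
  · have h1 : diagonal (fun k => (a k)⁻¹) * diagonal a = 1 := by
      rw [diagonal_mul_diagonal]
      have : (fun i => (a i)⁻¹ * a i) = fun _ => (1 : ℝ) := by
        funext i; exact inv_mul_cancel₀ (ha0 i).ne'
      rw [this, diagonal_one]
    calc g = (diagonal (fun k => (a k)⁻¹) * diagonal a) * g * (zR γ * zR γ⁻¹) := by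
          rw [h1, zR_inv hγ, Matrix.one_mul, Matrix.mul_one]
      _ = diagonal (fun k => (a k)⁻¹) * (diagonal a * g * zR γ) * zR γ⁻¹ := by
          simp only [Matrix.mul_assoc]
      _ = _ := by rw [← hx, ← hEB n]; simp only [Matrix.mul_assoc]
  · intro k l hkl hno
    rw [diagonal_mul, hn k l hkl hno, mul_zero]

/-- **Countably many limit values in a cone.** -/
theorem forward (hd : 3 ≤ d) {J : Finset (Fin d)} (hJ : J.Nonempty)
    (hJ' : J ≠ Finset.univ) {g : Matrix (Fin d) (Fin d) ℝ} (hg : g.det ≠ 0) {ν r T : ℝ}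
    (hν : 0 < ν) (hr0 : 0 < r) (hB : Bd J g ν r)
    (hT : ∀ h : Matrix (Fin d) (Fin d) ℝ, |h.det| = |g.det| →
      ∃ m : Fin d → ℤ, m ≠ 0 ∧ |FF h (iR m)| < T)
    (hC : {t : ℝ | t < T ∧ t ∈ LimVal J g}.Countable) :
    ∃ h₁ P : Matrix (Fin d) (Fin d) ℝ, PropInt h₁ ∧ (∃ ν₁ : ℝ, 0 < ν₁ ∧ HasNu h₁ ν₁) ∧
      g = P * h₁ ∧ ∀ k l, k ≠ l → ¬ (k ∉ J ∧ l ∈ J) → P k l = 0 := by
  classical
  have hd0 : 0 < d := by omega
  have hV0 : 0 < |g.det| := abs_pos.2 hg
  obtain ⟨M, hMY, hMc, hMne, hMinv, hMmin⟩ := exists_minimal' hd0 hV0 hν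
    (YJ_closed J g) (YJ_nonempty hd0 hJ hJ' hg hν hr0 hB) (YJ_inv J g)
    (fun h hh => abs_det_closure (YJ_subset _ _ hh)) (fun h hh => YJ_nu hr0 hB hh)
  set S : Set ℝ := {t : ℝ | t < T ∧ t ∈ LimVal J g} with hS
  set C : Set ℝ := {0} ∪ (S ∪ (fun t => -t) '' S) with hCdef
  have hCc : C.Countable := (Set.countable_singleton 0).union (hC.union (hC.image _))
  obtain ⟨h₀, hh₀, hrows⟩ := exists_alg_point (by omega : 2 ≤ d) hV0 hν hT
    (fun h hh => abs_det_closure (YJ_subset _ _ (hMY hh)))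
    (fun h hh => YJ_nu hr0 hB (hMY hh)) hMc hMne hMinv hMmin C hCc (by
      intro h hh m hm
      by_cases hm0 : m = 0
      · left
        rw [Set.mem_singleton_iff, hm0, FF_eq]
        have h1 : iR (0 : Fin d → ℤ) = 0 := by funext l; simp [iR]
        rw [h1, mulVec_zero]
        exact Finset.prod_eq_zero (Finset.mem_univ ⟨0, hd0⟩) rfl
      · right
        have h1 := limVal_of_YJ hν (hMY hh) (YJ_nu hr0 hB (hMY hh)) hm0
        rcases le_total 0 (FF h (iR m)) with h2 | h2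
        · left
          rw [abs_of_nonneg h2] at hm h1
          exact ⟨hm, h1⟩
        · right
          rw [abs_of_nonpos h2] at hm h1
          exact ⟨-FF h (iR m), ⟨hm, h1⟩, by simp⟩)
  obtain ⟨K, hfin, hK, s, hs, hmem⟩ := hrows ⟨0, hd0⟩
  exact cone_isolation hd hJ hJ' hg hν hr0 hB (hMY hh₀) ⟨0, hd0⟩ s hs K hK hmem

end Pool.Agent.R750.CV
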