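import Mathlib
import Pool.Agent.R750.CV.Main
import Pool.Agent.H715R2.Uncountable

/-! # Forms with countably many limit values in a cone: the converse -/

open Filter Topology Matrix

namespace Pool.Agent.R750.CV

open H715R2

set_option linter.unusedSectionVars false

variable {d : ℕ}

/-- all off-diagonal entries vanish, except those in a column of `J` and a row outside `J` -/
def Shape (J : Finset (Fin d)) (P : Matrix (Fin d) (Fin d) ℝ) : Prop :=
  ∀ k l, k ≠ l → ¬ (k ∉ J ∧ l ∈ J) → P k l = 0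

lemma shape_diag_ne {J : Finset (Fin d)} {P : Matrix (Fin d) (Fin d) ℝ} (hP : Shape J P)
    (hdet : P.det ≠ 0) (k : Fin d) : P k k ≠ 0 := by
  intro h0
  by_cases hk : k ∈ J
  · exact hdet (Matrix.det_eq_zero_of_row_eq_zero k fun j => by
      by_cases hj : k = j
      · rw [← hj, h0]
      · exact hP k j hj (fun h => h.1 hk))
  · exact hdet (Matrix.det_eq_zero_of_column_eq_zero k fun i => by
      by_cases hi : i = k
      · rw [hi, h0]
      · exact hP i k hi (fun h => hk h.2))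

lemma shape_J {J : Finset (Fin d)} {P : Matrix (Fin d) (Fin d) ℝ} (hP : Shape J P) {k : Fin d}
    (hk : k ∈ J) (y : Fin d → ℝ) : (P *ᵥ y) k = P k k * y k := by
  show ∑ l, P k l * y l = _
  rw [Finset.sum_eq_single k]
  · intro l _ hl
    rw [hP k l (Ne.symm hl) (fun h => h.1 hk), zero_mul]
  · intro h
    exact absurd (Finset.mem_univ _) h

lemma shape_nJ {J : Finset (Fin d)} {P : Matrix (Fin d) (Fin d) ℝ} (hP : Shape J P) {k : Fin d}
    (hk : k ∉ J) (y : Fin d → ℝ) : (P *ᵥ y) k = P k k * y k + ∑ l ∈ J, P k l * y l := by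
  classical
  show ∑ l, P k l * y l = _
  rw [← Finset.sum_add_sum_compl J, add_comm]
  congr 1
  rw [Finset.sum_eq_single k]
  · intro l hl hlk
    rw [hP k l (Ne.symm hlk) (fun h => (Finset.mem_compl.1 hl) h.2), zero_mul]
  · intro h
    exact absurd (Finset.mem_compl.2 hk) h

lemma bd_of_shape {J : Finset (Fin d)} {P h₁ : Matrix (Fin d) (Fin d) ℝ} (hP : Shape J P)
    (hdet : P.det ≠ 0) {ν₁ : ℝ} (hν₁ : 0 < ν₁) (hnu : HasNu h₁ ν₁) :
    ∃ ν : ℝ, 0 < ν ∧ Bd J (P * h₁) ν 1 := by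
  classical
  have hPk := shape_diag_ne hP hdet
  set C : ℝ := ∑ k, ∑ l, |P k l| * |P l l|⁻¹ with hC
  have hC0 : 0 ≤ C := Finset.sum_nonneg fun k _ => Finset.sum_nonneg fun l _ => by positivity
  have hprod : 0 < ∏ k, |P k k| := Finset.prod_pos fun k _ => abs_pos.2 (hPk k)
  refine ⟨(∏ k, |P k k|) * ν₁ / (1 + C) ^ d, by positivity, fun x hx hr => ?_⟩
  rw [div_le_iff₀ (by positivity)]
  set y := h₁ *ᵥ iR x with hy
  have hl : (P * h₁) *ᵥ iR x = P *ᵥ y := by rw [hy, mulVec_mulVec]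
  have hyJ : ∀ l ∈ J, |y l| ≤ |P l l|⁻¹ := by
    intro l hl'
    have h1 := hr l hl'
    rw [hl, shape_J hP hl', abs_mul] at h1
    rw [← one_div, le_div_iff₀ (abs_pos.2 (hPk l)), mul_comm]
    exact h1
  have hkey : ∀ k, |P k k| * |y k| ≤ (1 + C) * (if k ∈ J then |((P * h₁) *ᵥ iR x) k|
      else max 1 |((P * h₁) *ᵥ iR x) k|) := by
    intro k
    rw [hl]
    split_ifs with hk
    · rw [shape_J hP hk, abs_mul]
      have : 0 ≤ |P k k| * |y k| := by positivity
      nlinarith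
    · have h1 : |∑ l ∈ J, P k l * y l| ≤ C := by
        calc |∑ l ∈ J, P k l * y l| ≤ ∑ l ∈ J, |P k l * y l| := Finset.abs_sum_le_sum_abs _ _
          _ ≤ ∑ l ∈ J, |P k l| * |P l l|⁻¹ := Finset.sum_le_sum fun l hl' => by
              rw [abs_mul]
              exact mul_le_mul_of_nonneg_left (hyJ l hl') (abs_nonneg _)
          _ ≤ ∑ l, |P k l| * |P l l|⁻¹ :=
              Finset.sum_le_univ_sum_of_nonneg fun l => by positivity
          _ ≤ C := Finset.single_le_sum (f := fun k => ∑ l, |P k l| * |P l l|⁻¹)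
              (fun k _ => Finset.sum_nonneg fun l _ => by positivity) (Finset.mem_univ k)
      have h2 := shape_nJ hP hk y
      have h3 : |P k k * y k| ≤ |(P *ᵥ y) k| + C := by
        have : P k k * y k = (P *ᵥ y) k - ∑ l ∈ J, P k l * y l := by rw [h2]; ring
        rw [this]
        exact (abs_sub _ _).trans (by linarith)
      rw [abs_mul] at h3
      have h4 : |(P *ᵥ y) k| ≤ max 1 |(P *ᵥ y) k| := le_max_right _ _
      have h5 : 1 ≤ max 1 |(P *ᵥ y) k| := le_max_left _ _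
      nlinarith
  calc (∏ k, |P k k|) * ν₁ ≤ (∏ k, |P k k|) * |FF h₁ (iR x)| :=
        mul_le_mul_of_nonneg_left (hnu x hx) hprod.le
    _ = ∏ k, (|P k k| * |y k|) := by
        rw [Finset.prod_mul_distrib, FF_eq, Finset.abs_prod]
    _ ≤ ∏ k, ((1 + C) * (if k ∈ J then |((P * h₁) *ᵥ iR x) k|
          else max 1 |((P * h₁) *ᵥ iR x) k|)) :=
        Finset.prod_le_prod (fun k _ => by positivity) fun k _ => hkey k
    _ = FT J (P * h₁) (iR x) * (1 + C) ^ d := by
        rw [Finset.prod_mul_distrib, Finset.prod_const, Finset.card_univ, Fintype.card_fin, FT,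
          mul_comm]

lemma limVal_shape {J : Finset (Fin d)} {P h₁ : Matrix (Fin d) (Fin d) ℝ} (hP : Shape J P)
    (hdet : P.det ≠ 0) (hint : PropInt h₁) : (LimVal J (P * h₁)).Countable := by
  classical
  have hPk := shape_diag_ne hP hdet
  obtain ⟨c, hc, hz⟩ := values_of_propInt hint
  set κ : ℝ := (∏ k, |P k k|) * |c| with hκ
  have hκ0 : κ ≠ 0 := by
    have : 0 < ∏ k, |P k k| := Finset.prod_pos fun k _ => abs_pos.2 (hPk k)
    have := abs_pos.2 hc
    positivity
  have hcl : IsClosed ((fun t : ℝ => κ * t) '' (Set.range (Int.cast : ℤ → ℝ))) :=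
    (Homeomorph.mulLeft₀ κ hκ0).isClosedMap _ Int.isClosedEmbedding_coe_real.isClosed_range
  refine Set.Countable.mono (s₂ := (fun t : ℝ => κ * t) '' (Set.range (Int.cast : ℤ → ℝ))) ?_
    ((Set.countable_range _).image _)
  intro t ht
  have hseq : ∀ n : ℕ, ∃ x : Fin d → ℤ, (∀ k ∈ J, |((P * h₁) *ᵥ iR x) k| < 1 / ((n : ℝ) + 1)) ∧
      (∀ k, k ∉ J → (n : ℝ) < |((P * h₁) *ᵥ iR x) k|) ∧
      |(|FF (P * h₁) (iR x)| - t)| < 1 / ((n : ℝ) + 1) := fun n => ht _ n (by positivity)
  choose x hx1 hx2 hx3 using hseq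
  set y : ℕ → Fin d → ℝ := fun n => h₁ *ᵥ iR (x n) with hy
  have hl : ∀ n, (P * h₁) *ᵥ iR (x n) = P *ᵥ y n := fun n => by rw [hy, mulVec_mulVec]
  have hz1 : Tendsto (fun n : ℕ => 1 / ((n : ℝ) + 1)) atTop (𝓝 0) :=
    tendsto_one_div_add_atTop_nhds_zero_nat
  have hlJ : ∀ k ∈ J, Tendsto (fun n => y n k) atTop (𝓝 0) := by
    intro k hk
    have h1 : Tendsto (fun n => P k k * y n k) atTop (𝓝 0) := by
      refine squeeze_zero_norm (fun n => ?_) hz1
      have h2 := hx1 n k hk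
      rw [hl, shape_J hP hk] at h2
      rw [Real.norm_eq_abs]
      exact h2.le
    have h2 := h1.const_mul (P k k)⁻¹
    rw [mul_zero] at h2
    refine h2.congr fun n => ?_
    rw [← mul_assoc, inv_mul_cancel₀ (hPk k), one_mul]
  have hs : ∀ k, Tendsto (fun n => ∑ l ∈ J, P k l * y n l) atTop (𝓝 0) := by
    intro k
    have h1 := tendsto_finsetSum J fun l hl' => (hlJ l hl').const_mul (P k l)
    simp only [mul_zero, Finset.sum_const_zero] at h1
    exact h1
  have hinv : ∀ k, k ∉ J → Tendsto (fun n => ((P *ᵥ y n) k)⁻¹) atTop (𝓝 0) := by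
    intro k hk
    rw [tendsto_zero_iff_abs_tendsto_zero]
    refine squeeze_zero' (Eventually.of_forall fun n => abs_nonneg _) ?_
      tendsto_inv_atTop_nhds_zero_nat
    filter_upwards [eventually_gt_atTop 0] with n hn
    have h1 := hx2 n k hk
    rw [hl] at h1
    rw [Function.comp_apply, abs_inv]
    have hn' : (0 : ℝ) < n := by exact_mod_cast hn
    exact inv_anti₀ hn' h1.le
  -- the ratios
  have hρ : ∀ k, Tendsto (fun n => if k ∈ J then (1 : ℝ) else
      |1 - (∑ l ∈ J, P k l * y n l) * ((P *ᵥ y n) k)⁻¹|) atTop (𝓝 1) := by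
    intro k
    by_cases hk : k ∈ J
    · simp only [if_pos hk]
      exact tendsto_const_nhds
    · simp only [if_neg hk]
      have h1 := (((hs k).mul (hinv k hk)).const_sub 1).abs
      rw [mul_zero, sub_zero, abs_one] at h1
      exact h1
  have hPr : Tendsto (fun n => ∏ k, (if k ∈ J then (1 : ℝ) else
      |1 - (∑ l ∈ J, P k l * y n l) * ((P *ᵥ y n) k)⁻¹|)) atTop (𝓝 1) := by
    have h1 := tendsto_finsetProd (Finset.univ : Finset (Fin d)) fun k _ => hρ k
    rwa [Finset.prod_const_one] at h1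
  have hF : Tendsto (fun n => |FF (P * h₁) (iR (x n))|) atTop (𝓝 t) := by
    rw [tendsto_iff_dist_tendsto_zero]
    refine squeeze_zero (fun n => dist_nonneg) (fun n => ?_) hz1
    rw [Real.dist_eq]
    exact (hx3 n).le
  have hlim := hF.mul hPr
  rw [mul_one] at hlim
  refine hcl.mem_of_tendsto hlim (Eventually.of_forall fun n => ?_)
  have e1 : |FF (P * h₁) (iR (x n))| * ∏ k, (if k ∈ J then (1 : ℝ) else
      |1 - (∑ l ∈ J, P k l * y n l) * ((P *ᵥ y n) k)⁻¹|) =
      (∏ k, |P k k|) * |FF h₁ (iR (x n))| := by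
    rw [FF_eq, FF_eq, Finset.abs_prod, Finset.abs_prod, ← Finset.prod_mul_distrib,
      ← Finset.prod_mul_distrib]
    refine Finset.prod_congr rfl fun k _ => ?_
    rw [hl, ← abs_mul]
    by_cases hk : k ∈ J
    · rw [if_pos hk, shape_J hP hk, mul_one]
    · rw [if_neg hk, ← abs_mul]
      congr 1
      have h1 := hx2 n k hk
      rw [hl] at h1
      have h2 : (P *ᵥ y n) k ≠ 0 := by
        intro h0
        rw [h0, abs_zero] at h1
        exact absurd h1 (not_lt.2 (Nat.cast_nonneg _))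
      have h3 := shape_nJ hP hk (y n)
      have h4 : P k k * y n k = (P *ᵥ y n) k - ∑ l ∈ J, P k l * y n l := by rw [h3]; ring
      rw [h4]
      field_simp
  rw [e1]
  obtain ⟨z, hz⟩ := hz (x n)
  refine ⟨((|z| : ℤ) : ℝ), ⟨|z|, rfl⟩, ?_⟩
  simp only
  rw [hz, abs_mul, hκ, Int.cast_abs]
  ring

end Pool.Agent.R750.CV
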