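import Mathlib
import Pool.Agent.R750.CV.Main
import Pool.Agent.H715R2.CountableValues

/-! # Limit values along one direction -/

open NumberField Filter Topology Matrix

namespace Pool.Agent.R750.CV

open H715R2

set_option linter.unusedSectionVars false

variable {d : ℕ}

/-- orbits along `exp (- s θ)` up to `δ s - N` -/
def OrbT (θ : Fin d → ℝ) (δ : ℝ) (g : Matrix (Fin d) (Fin d) ℝ) (N : ℕ) :
    Set (Matrix (Fin d) (Fin d) ℝ) :=
  {h | ∃ (a : Fin d → ℝ) (γ : Matrix (Fin d) (Fin d) ℤ) (s : ℝ), (∀ i, 0 < a i) ∧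
    ∏ i, a i = 1 ∧ (N : ℝ) ≤ s ∧ (∀ k, |Real.log (a k) + θ k * s| ≤ δ * s - N) ∧
    IsUnit γ.det ∧ h = diagonal a * g * zR γ}

/-- limit set -/
def YT (θ : Fin d → ℝ) (δ : ℝ) (g : Matrix (Fin d) (Fin d) ℝ) :
    Set (Matrix (Fin d) (Fin d) ℝ) :=
  ⋂ N : ℕ, closure (OrbT θ δ g N)

/-- limit values along the direction `θ` -/
def LimT (θ : Fin d → ℝ) (δ : ℝ) (g : Matrix (Fin d) (Fin d) ℝ) : Set ℝ :=
  {t | ∀ (ε : ℝ) (N : ℕ), 0 < ε → ∃ (x : Fin d → ℤ) (s : ℝ), x ≠ 0 ∧ (N : ℝ) ≤ s ∧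
    (∀ k, |Real.log |(g *ᵥ iR x) k| - θ k * s| ≤ δ * s) ∧ |(|FF g (iR x)| - t)| < ε}

lemma OrbT_subset (θ : Fin d → ℝ) (δ : ℝ) (g : Matrix (Fin d) (Fin d) ℝ) (N : ℕ) :
    OrbT θ δ g N ⊆ Orb g := by
  rintro h ⟨a, γ, s, ha0, ha1, -, -, hγ, rfl⟩
  exact ⟨a, γ, ha0, ha1, hγ, rfl⟩

lemma OrbT_anti (θ : Fin d → ℝ) (δ : ℝ) (g : Matrix (Fin d) (Fin d) ℝ) {N N' : ℕ} (h : N ≤ N') :
    OrbT θ δ g N' ⊆ OrbT θ δ g N := by
  rintro x ⟨a, γ, s, ha0, ha1, h1, h2, hγ, rfl⟩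
  have h3 : (N : ℝ) ≤ N' := by exact_mod_cast h
  exact ⟨a, γ, s, ha0, ha1, h3.trans h1, fun k => (h2 k).trans (by linarith), hγ, rfl⟩

lemma YT_closed (θ : Fin d → ℝ) (δ : ℝ) (g : Matrix (Fin d) (Fin d) ℝ) : IsClosed (YT θ δ g) :=
  isClosed_iInter fun _ => isClosed_closure

lemma YT_subset (θ : Fin d → ℝ) (δ : ℝ) (g : Matrix (Fin d) (Fin d) ℝ) :
    YT θ δ g ⊆ closure (Orb g) :=
  fun _ hh => closure_mono (OrbT_subset θ δ g 0) (Set.mem_iInter.1 hh 0)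

lemma YT_inv (θ : Fin d → ℝ) (δ : ℝ) (g : Matrix (Fin d) (Fin d) ℝ) :
    H715R2.Inv (YT θ δ g) := by
  intro h hh b δ' hb0 hb1 hδ
  rw [YT, Set.mem_iInter]
  intro N
  obtain ⟨C, hC⟩ := exists_nat_ge (∑ k, |Real.log (b k)|)
  have hCk : ∀ k, |Real.log (b k)| ≤ C := fun k =>
    (Finset.single_le_sum (f := fun k => |Real.log (b k)|) (fun k _ => abs_nonneg _)
      (Finset.mem_univ k)).trans hC
  have h1 : h ∈ closure (OrbT θ δ g (N + C)) := Set.mem_iInter.1 hh (N + C)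
  refine map_mem_closure (f := fun h : Matrix (Fin d) (Fin d) ℝ => diagonal b * h * zR δ')
    ?_ h1 ?_
  · exact (continuous_const.matrix_mul continuous_id).matrix_mul continuous_const
  · rintro _ ⟨a, γ, s, ha0, ha1, h1, h2, hγ, rfl⟩
    refine ⟨fun i => b i * a i, γ * δ', s, fun i => mul_pos (hb0 i) (ha0 i), ?_, ?_, ?_, ?_, ?_⟩
    · rw [Finset.prod_mul_distrib, hb1, ha1, one_mul]
    · push_cast at h1
      have : (0 : ℝ) ≤ C := Nat.cast_nonneg _
      linarith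
    · intro k
      have h3 := h2 k
      have h4 := hCk k
      push_cast at h3
      rw [Real.log_mul (hb0 k).ne' (ha0 k).ne']
      calc |Real.log (b k) + Real.log (a k) + θ k * s|
          = |Real.log (b k) + (Real.log (a k) + θ k * s)| := by rw [add_assoc]
        _ ≤ |Real.log (b k)| + |Real.log (a k) + θ k * s| := abs_add_le _ _
        _ ≤ δ * s - N := by linarith
    · rw [det_mul]; exact hγ.mul hδ
    · rw [zR_mul, ← diagonal_mul_diagonal]
      simp only [Matrix.mul_assoc]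

lemma YT_nonempty (hd : 0 < d) {θ : Fin d → ℝ} (hθ : ∑ k, θ k = 0) {δ : ℝ} (hδ : 0 < δ)
    {g : Matrix (Fin d) (Fin d) ℝ} (hg : g.det ≠ 0) {ν : ℝ} (hν : 0 < ν)
    (hnu : HasNu g ν) : (YT θ δ g).Nonempty := by
  classical
  obtain ⟨R, hR⟩ := exists_bound hd |g.det| ν (abs_pos.2 hg) hν
  have hstep : ∀ n : ℕ, ∃ x ∈ OrbT θ δ g n, ∀ i j, |x i j| ≤ R := by
    intro n
    have hn : (0 : ℝ) ≤ n := Nat.cast_nonneg _
    set s : ℝ := n + n / δ with hs
    have hs1 : (n : ℝ) ≤ s := by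
      have : 0 ≤ (n : ℝ) / δ := by positivity
      linarith
    have hs2 : 0 ≤ δ * s - n := by
      have : δ * s = δ * n + n := by rw [hs]; field_simp
      rw [this]
      have : 0 ≤ δ * n := by positivity
      linarith
    set a : Fin d → ℝ := fun k => Real.exp (-(θ k * s)) with ha
    have ha0 : ∀ k, 0 < a k := fun k => Real.exp_pos _
    have ha1 : ∏ k, a k = 1 := by
      simp only [ha]
      rw [← Real.exp_sum, Finset.sum_neg_distrib, ← Finset.sum_mul, hθ, zero_mul, neg_zero,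
        Real.exp_zero]
    obtain ⟨γ, hγ, hγR⟩ := hR (diagonal a * g)
      (by rw [det_mul, det_diagonal, ha1, one_mul]) (by
        intro m hm
        rw [FF_diag_mul, ha1, one_mul]
        exact hnu m hm)
    refine ⟨_, ⟨a, γ, s, ha0, ha1, hs1, fun k => ?_, hγ, rfl⟩, hγR⟩
    simp only [ha]
    rw [Real.log_exp, neg_add_cancel, abs_zero]
    exact hs2
  choose x hx hxR using hstep
  obtain ⟨h, -, φ, hφ, hlim⟩ := (isCompact_box (d := d) R).tendsto_subseq hxR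
  refine ⟨h, Set.mem_iInter.2 fun N => ?_⟩
  refine mem_closure_of_tendsto hlim ?_
  filter_upwards [eventually_ge_atTop N] with n hn
  exact OrbT_anti _ _ _ (hn.trans (hφ.le_apply)) (hx (φ n))

lemma limT_of_YT {θ : Fin d → ℝ} {δ : ℝ} {g h : Matrix (Fin d) (Fin d) ℝ} {ν : ℝ} (hν : 0 < ν)
    (hh : h ∈ YT θ δ g) (hnu : HasNu h ν) {m : Fin d → ℤ} (hm : m ≠ 0) :
    |FF h (iR m)| ∈ LimT θ δ g := by
  classical
  intro ε N hε
  have hpos : ∀ k, 0 < |(h *ᵥ iR m) k| := by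
    intro k
    rw [abs_pos]
    intro h0
    have h1 := hnu m hm
    rw [FF_eq, Finset.prod_eq_zero (Finset.mem_univ k) h0, abs_zero] at h1
    exact absurd h1 (not_le.2 hν)
  obtain ⟨C, hC⟩ := exists_nat_ge (∑ k, (|Real.log (|(h *ᵥ iR m) k|)| + 1))
  have hCk : ∀ k, |Real.log (|(h *ᵥ iR m) k|)| + 1 ≤ C := fun k =>
    (Finset.single_le_sum (f := fun k => |Real.log (|(h *ᵥ iR m) k|)| + 1)
      (fun k _ => by positivity) (Finset.mem_univ k)).trans hC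
  have hopen : ∀ᶠ h' in 𝓝 h, (∀ k, |Real.log (|(h' *ᵥ iR m) k|)| < C ∧ (h' *ᵥ iR m) k ≠ 0) ∧
      |(|FF h' (iR m)| - |FF h (iR m)|)| < ε := by
    refine (Filter.eventually_all.2 fun k => ?_).and ?_
    · have hc : Tendsto (fun h' : Matrix (Fin d) (Fin d) ℝ => |(h' *ᵥ iR m) k|) (𝓝 h)
          (𝓝 |(h *ᵥ iR m) k|) := ((cont_entry m k).tendsto h).abs
      have hl := ((Real.continuousAt_log (hpos k).ne').tendsto.comp hc).abs
      refine (hl.eventually (gt_mem_nhds ?_)).and ?_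
      · have := hCk k
        linarith
      · filter_upwards [hc.eventually (lt_mem_nhds (hpos k))] with h' hh'
        exact abs_pos.1 hh'
    · have h1 : Tendsto (fun h' : Matrix (Fin d) (Fin d) ℝ =>
          |(|FF h' (iR m)| - |FF h (iR m)|)|) (𝓝 h) (𝓝 0) := by
        have := ((((continuous_FF (iR m)).tendsto h).abs).sub_const |FF h (iR m)|).abs
        rwa [sub_self, abs_zero] at this
      exact h1.eventually (gt_mem_nhds hε)
  have hmem : h ∈ closure (OrbT θ δ g (N + C)) := Set.mem_iInter.1 hh (N + C)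
  obtain ⟨h', ⟨h1, h2⟩, a, γ, s, ha0, ha1, hs1, hs2, hγ, rfl⟩ :=
    mem_closure_iff_nhds.1 hmem _ hopen
  refine ⟨γ *ᵥ m, s, gamma_ne hγ hm, ?_, fun k => ?_, ?_⟩
  · push_cast at hs1
    have : (0 : ℝ) ≤ C := Nat.cast_nonneg _
    linarith
  · obtain ⟨h3, h4⟩ := h1 k
    rw [orb_entry] at h3 h4
    have h5 : (g *ᵥ iR (γ *ᵥ m)) k ≠ 0 := fun h0 => h4 (by rw [h0, mul_zero])
    rw [abs_mul, abs_of_pos (ha0 k), Real.log_mul (ha0 k).ne' (abs_pos.2 h5).ne'] at h3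
    have h6 := hs2 k
    push_cast at h6
    have h7 : (0 : ℝ) ≤ N := Nat.cast_nonneg _
    calc |Real.log (|(g *ᵥ iR (γ *ᵥ m)) k|) - θ k * s|
        = |(Real.log (a k) + Real.log (|(g *ᵥ iR (γ *ᵥ m)) k|)) - (Real.log (a k) + θ k * s)| := by
          congr 1; ring
      _ ≤ |Real.log (a k) + Real.log (|(g *ᵥ iR (γ *ᵥ m)) k|)| + |Real.log (a k) + θ k * s| :=
          abs_sub _ _
      _ ≤ δ * s := by linarith
  · rw [FF_orb ha1] at h2
    exact h2

/-- **Countably many limit values along a direction.** -/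
theorem direction (hd : 3 ≤ d) {θ : Fin d → ℝ} (hθ : ∑ k, θ k = 0) {δ : ℝ} (hδ : 0 < δ)
    {g : Matrix (Fin d) (Fin d) ℝ} (hg : g.det ≠ 0) {ν T : ℝ} (hν : 0 < ν) (hnu : HasNu g ν)
    (hT : ∀ h : Matrix (Fin d) (Fin d) ℝ, |h.det| = |g.det| →
      ∃ m : Fin d → ℤ, m ≠ 0 ∧ |FF h (iR m)| < T)
    (hC : {t : ℝ | t < T ∧ t ∈ LimT θ δ g}.Countable) : PropInt g := by
  classical
  have hd0 : 0 < d := by omega
  have hV0 : 0 < |g.det| := abs_pos.2 hg
  have hYnu : ∀ h ∈ YT θ δ g, HasNu h ν := fun h hh => hasNu_closure hnu (YT_subset _ _ _ hh)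
  obtain ⟨M, hMY, hMc, hMne, hMinv, hMmin⟩ := exists_minimal' hd0 hV0 hν
    (YT_closed θ δ g) (YT_nonempty hd0 hθ hδ hg hν hnu) (YT_inv θ δ g)
    (fun h hh => abs_det_closure (YT_subset _ _ _ hh)) hYnu
  set S : Set ℝ := {t : ℝ | t < T ∧ t ∈ LimT θ δ g} with hS
  set C : Set ℝ := {0} ∪ (S ∪ (fun t => -t) '' S) with hCdef
  have hCc : C.Countable := (Set.countable_singleton 0).union (hC.union (hC.image _))
  obtain ⟨h₀, hh₀, hrows⟩ := exists_alg_point (by omega : 2 ≤ d) hV0 hν hT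
    (fun h hh => abs_det_closure (YT_subset _ _ _ (hMY hh)))
    (fun h hh => hYnu h (hMY hh)) hMc hMne hMinv hMmin C hCc (by
      intro h hh m hm
      by_cases hm0 : m = 0
      · left
        rw [Set.mem_singleton_iff, hm0, FF_eq]
        have h1 : iR (0 : Fin d → ℤ) = 0 := by funext l; simp [iR]
        rw [h1, mulVec_zero]
        exact Finset.prod_eq_zero (Finset.mem_univ ⟨0, hd0⟩) rfl
      · right
        have h1 := limT_of_YT hν (hMY hh) (hYnu h (hMY hh)) hm0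
        rcases le_total 0 (FF h (iR m)) with h2 | h2
        · left
          rw [abs_of_nonneg h2] at hm h1
          exact ⟨hm, h1⟩
        · right
          rw [abs_of_nonpos h2] at hm h1
          exact ⟨-FF h (iR m), ⟨hm, h1⟩, by simp⟩)
  obtain ⟨K, hfin, hK, s, hs, hmem⟩ := hrows ⟨0, hd0⟩
  rcases limit_alg hd hg (YT_subset _ _ _ (hMY hh₀)) ⟨0, hd0⟩ s hs K hK hmem with
    ⟨x, hx, hx0⟩ | hint | hdense
  · exfalso
    have h1 := hYnu h₀ (hMY hh₀) x hx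
    have h2 : FF h₀ (iR x) = 0 := by
      rw [FF]
      exact Finset.prod_eq_zero (Finset.mem_univ ⟨0, hd0⟩) hx0
    rw [h2, abs_zero] at h1
    exact absurd h1 (not_le.2 hν)
  · exact hint
  · exfalso
    obtain ⟨x, hx, hx2⟩ := dense_ne hd0 hdense 0 ν hν
    rw [sub_zero] at hx2
    exact absurd (hnu x hx) (not_le.2 hx2)

end Pool.Agent.R750.CV
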