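import Mathlib
import Pool.Agent.R750.CV.Converse

/-! # Littlewood's problem in several dimensions: limit values -/

open Filter Topology Matrix

namespace Pool.Agent.R750.CV

open H715R2

set_option linter.unusedSectionVars false

variable {n : ℕ}

/-- `q ‖q α₁‖ ⋯ ‖q αₙ‖` -/
noncomputable def fN (α : Fin n → ℝ) (q : ℕ) : ℝ :=
  (q : ℝ) * ∏ i, |(q : ℝ) * α i - (round ((q : ℝ) * α i) : ℝ)|

/-- the matrix of the forms `q, α i q - p i` -/
def LN (α : Fin n → ℝ) : Matrix (Fin (n + 1)) (Fin (n + 1)) ℝ :=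
  Matrix.of fun k j => Fin.cases (motive := fun _ => ℝ) (if j = 0 then 1 else 0)
    (fun i => if j = 0 then α i else if j = i.succ then -1 else 0) k

lemma LN_zero (α : Fin n → ℝ) (x : Fin (n + 1) → ℝ) : (LN α *ᵥ x) 0 = x 0 := by
  show ∑ j, LN α 0 j * x j = _
  rw [Finset.sum_eq_single 0]
  · simp [LN]
  · intro j _ hj
    simp [LN, hj]
  · intro h
    exact absurd (Finset.mem_univ _) h

lemma LN_succ (α : Fin n → ℝ) (x : Fin (n + 1) → ℝ) (i : Fin n) :
    (LN α *ᵥ x) i.succ = α i * x 0 - x i.succ := by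
  show ∑ j, LN α i.succ j * x j = _
  rw [Fin.sum_univ_succ]
  have h1 : LN α i.succ 0 = α i := by simp [LN]
  have h2 : ∀ j : Fin n, LN α i.succ j.succ = if j = i then -1 else 0 := by
    intro j
    simp [LN, Fin.succ_ne_zero, Fin.succ_inj]
  rw [h1, Finset.sum_congr rfl fun j _ => by rw [h2 j]]
  simp only [ite_mul, zero_mul, Finset.sum_ite_eq', Finset.mem_univ, if_true]
  ring

lemma LN_det (α : Fin n → ℝ) : |(LN α).det| = 1 := by
  rw [Matrix.det_of_lowerTriangular]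
  · rw [Fin.prod_univ_succ]
    have h1 : LN α 0 0 = 1 := by simp [LN]
    have h2 : ∀ j : Fin n, LN α j.succ j.succ = -1 := by
      intro j
      simp [LN, Fin.succ_ne_zero]
    rw [h1, Finset.prod_congr rfl fun j _ => h2 j]
    simp
  · intro k j hkj
    have hkj' : k < j := hkj
    have hj : j ≠ 0 := (Fin.pos_iff_ne_zero.1 (lt_of_le_of_lt (Fin.zero_le k) hkj'))
    clear hkj
    revert hkj'
    refine Fin.cases (fun _ => ?_) (fun i hkj' => ?_) k
    · simp [LN, hj]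
    · have : j ≠ i.succ := (ne_of_lt hkj').symm
      simp [LN, hj, this]

lemma FF_LN (α : Fin n → ℝ) (x : Fin (n + 1) → ℝ) :
    FF (LN α) x = x 0 * ∏ i : Fin n, (α i * x 0 - x i.succ) := by
  rw [FF_eq, Fin.prod_univ_succ, LN_zero]
  simp only [LN_succ]

/-- the rows `α i q - p i` -/
def JN (n : ℕ) : Finset (Fin (n + 1)) := Finset.univ.erase 0

lemma mem_JN {k : Fin (n + 1)} : k ∈ JN n ↔ k ≠ 0 := by simp [JN]

lemma FT_LN (α : Fin n → ℝ) (x : Fin (n + 1) → ℝ) :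
    FT (JN n) (LN α) x = max 1 |x 0| * ∏ i : Fin n, |α i * x 0 - x i.succ| := by
  rw [FT, Fin.prod_univ_succ, if_neg (by simp [JN]), LN_zero]
  congr 1
  refine Finset.prod_congr rfl fun i _ => ?_
  rw [if_pos (by simp [JN, Fin.succ_ne_zero]), LN_succ]

lemma natAbs_real (q : ℤ) : ((q.natAbs : ℕ) : ℝ) = |(q : ℝ)| := by
  rw [Nat.cast_natAbs, Int.cast_abs]

lemma round_le_int (α : ℝ) (q z : ℤ) : |((q.natAbs : ℕ) : ℝ) * α -
    (round (((q.natAbs : ℕ) : ℝ) * α) : ℝ)| ≤ |α * q - z| := by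
  rcases Int.natAbs_eq q with hq' | hq'
  · have h2 : (((q.natAbs : ℕ) : ℝ)) = (q : ℝ) := by
      rw [Nat.cast_natAbs]
      have : (0 : ℤ) ≤ q := by omega
      rw [abs_of_nonneg this]
    rw [h2, mul_comm (q : ℝ) α]
    exact round_le _ _
  · have h2 : (((q.natAbs : ℕ) : ℝ)) = -(q : ℝ) := by
      rw [Nat.cast_natAbs]
      have : q ≤ 0 := by omega
      rw [abs_of_nonpos this]
      push_cast
      ring
    have h3 := round_le (-(q : ℝ) * α) (-z)
    rw [h2]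
    refine h3.trans (le_of_eq ?_)
    push_cast
    have : -(q : ℝ) * α - -(z : ℝ) = -(α * q - z) := by ring
    rw [this, abs_neg]

lemma fN_pos {α : Fin n → ℝ} {ε : ℝ} (hε : 0 < ε) {N : ℕ}
    (h : ∀ q : ℕ, N ≤ q → 0 < q → ε ≤ fN α q) (q : ℕ) (hq : 0 < q) : 0 < fN α q := by
  have hnn : 0 ≤ fN α q := mul_nonneg (Nat.cast_nonneg _) (Finset.prod_nonneg fun i _ =>
    abs_nonneg _)
  refine lt_of_le_of_ne hnn fun h0 => ?_
  have hq' : (0 : ℝ) < q := by exact_mod_cast hq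
  rcases mul_eq_zero.1 h0.symm with h1 | h1
  · exact hq'.ne' h1
  obtain ⟨i, -, h2⟩ := Finset.prod_eq_zero_iff.1 h1
  rw [abs_eq_zero, sub_eq_zero] at h2
  have h3 : fN α ((N + 1) * q) = 0 := by
    have h4 : ((((N + 1) * q : ℕ) : ℝ) * α i) =
        ((((N : ℤ) + 1) * round ((q : ℝ) * α i) : ℤ) : ℝ) := by
      push_cast
      rw [mul_assoc, ← h2]
    refine mul_eq_zero.2 (Or.inr (Finset.prod_eq_zero (Finset.mem_univ i) ?_))
    rw [h4, round_intCast, sub_self, abs_zero]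
  have h4 := h ((N + 1) * q) (by nlinarith) (by positivity)
  rw [h3] at h4
  exact absurd h4 (not_le.2 hε)

lemma exists_nuN {α : Fin n → ℝ} {ε : ℝ} (hε : 0 < ε) {N : ℕ}
    (h : ∀ q : ℕ, N ≤ q → 0 < q → ε ≤ fN α q) :
    ∃ ν : ℝ, 0 < ν ∧ Bd (JN n) (LN α) ν (1 / 2) := by
  obtain ⟨ν, hν0, hν⟩ : ∃ ν : ℝ, 0 < ν ∧ ∀ q : ℕ, 0 < q → ν ≤ fN α q := by
    by_cases hemp : (Finset.Ico 1 (N + 1)).Nonempty
    · obtain ⟨q₀, hq₀, hmin⟩ := (Finset.Ico 1 (N + 1)).exists_min_image (fN α) hemp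
      refine ⟨min ε (fN α q₀), lt_min hε (fN_pos hε h q₀ (Finset.mem_Ico.1 hq₀).1),
        fun q hq => ?_⟩
      by_cases hqN : N ≤ q
      · exact (min_le_left _ _).trans (h q hqN hq)
      · exact (min_le_right _ _).trans (hmin q (Finset.mem_Ico.2 ⟨hq, by omega⟩))
    · refine ⟨ε, hε, fun q hq => h q ?_ hq⟩
      rw [Finset.nonempty_Ico] at hemp
      omega
  refine ⟨ν, hν0, fun x hx hr => ?_⟩
  have hq : x 0 ≠ 0 := by
    intro h0
    apply hx
    funext k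
    refine Fin.cases ?_ (fun i => ?_) k
    · exact h0
    · have h1 := hr i.succ (by simp [JN, Fin.succ_ne_zero])
      rw [LN_succ] at h1
      simp only [iR, h0, Int.cast_zero, mul_zero, zero_sub, abs_neg] at h1
      have h2 : |x i.succ| < 1 := by
        have : ((|x i.succ| : ℤ) : ℝ) < 1 := by
          push_cast
          linarith
        exact_mod_cast this
      exact Int.abs_lt_one_iff.1 h2
  rw [FT_LN]
  refine (hν (x 0).natAbs (Int.natAbs_pos.2 hq)).trans ?_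
  refine mul_le_mul ?_ ?_ (Finset.prod_nonneg fun i _ => abs_nonneg _) ?_
  · rw [natAbs_real]
    exact le_max_right _ _
  · exact Finset.prod_le_prod (fun i _ => abs_nonneg _) fun i _ => round_le_int (α i) (x 0) _
  · exact le_max_of_le_left zero_le_one

lemma cluster_of_limVal {α : Fin n → ℝ} {t : ℝ} (ht : t ∈ LimVal (JN n) (LN α)) :
    MapClusterPt t atTop (fN α) := by
  rw [mapClusterPt_iff_frequently]
  intro s hs
  rw [frequently_atTop]
  intro N₀
  obtain ⟨ε, hε, hball⟩ := Metric.mem_nhds_iff.1 hs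
  obtain ⟨x, hx1, hx2, hx3⟩ := ht (min ε (1 / 2)) N₀ (lt_min hε (by norm_num))
  refine ⟨(x 0).natAbs, ?_, ?_⟩
  · have h1 := hx2 0 (by simp [JN])
    rw [LN_zero] at h1
    have h2 : (N₀ : ℝ) < (((x 0).natAbs : ℕ) : ℝ) := by
      rw [natAbs_real]
      exact h1
    exact_mod_cast h2.le
  · apply hball
    rw [Metric.mem_ball, Real.dist_eq]
    have h4 : fN α (x 0).natAbs = |FF (LN α) (iR x)| := by
      rw [FF_LN, fN, abs_mul, natAbs_real, Finset.abs_prod]
      congr 1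
      refine Finset.prod_congr rfl fun i _ => ?_
      have h5 := hx1 i.succ (by simp [JN, Fin.succ_ne_zero])
      rw [LN_succ] at h5
      rw [← natAbs_real]
      exact dist_round_natAbs (α i) (h5.trans_le (min_le_right _ _))
    rw [h4]
    exact hx3.trans_le (min_le_left _ _)

/-- **Several dimensions.** -/
theorem littlewoodN (hn : 2 ≤ n) (α : Fin n → ℝ) (T : ℝ)
    (hT : ∀ h : Matrix (Fin (n + 1)) (Fin (n + 1)) ℝ, |h.det| = 1 →
      ∃ m : Fin (n + 1) → ℤ, m ≠ 0 ∧ |FF h (iR m)| < T)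
    (hC : {t : ℝ | t < T ∧ MapClusterPt t atTop (fN α)}.Countable) :
    ∀ ε : ℝ, 0 < ε → ∀ N : ℕ, ∃ q : ℕ, N ≤ q ∧ 0 < q ∧ fN α q < ε := by
  by_contra hcon
  push Not at hcon
  obtain ⟨ε, hε, N, hN⟩ := hcon
  obtain ⟨ν, hν0, hB⟩ := exists_nuN hε hN
  have hdet := LN_det α
  have hdet0 : (LN α).det ≠ 0 := by
    intro h0
    rw [h0, abs_zero] at hdet
    exact zero_ne_one hdet
  obtain ⟨i₁, i₂, h12⟩ : ∃ i₁ i₂ : Fin n, i₁ ≠ i₂ :=
    ⟨⟨0, by omega⟩, ⟨1, by omega⟩, by simp [Fin.ext_iff]⟩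
  have hk : i₁.succ ∈ JN n := by simp [JN, Fin.succ_ne_zero]
  have hC' : {t : ℝ | t < T ∧ t ∈ LimVal (JN n) (LN α)}.Countable :=
    Set.Countable.mono (fun t ht => And.intro ht.1 (cluster_of_limVal ht.2)) hC
  obtain ⟨h₁, P, -, ⟨ν₁, hν₁, hnu⟩, hg, hP⟩ := forward (d := n + 1) (by omega) (J := JN n)
    (Exists.intro i₁.succ hk)
    (by
      intro h
      have : (0 : Fin (n + 1)) ∈ JN n := by rw [h]; exact Finset.mem_univ _
      simp [JN] at this)
    hdet0 hν0 (by norm_num : (0 : ℝ) < 1 / 2) hB (by rw [hdet]; exact hT) hC'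
  have hPdet : P.det ≠ 0 := by
    intro h0
    apply hdet0
    rw [hg, det_mul, h0, zero_mul]
  set x : Fin (n + 1) → ℤ := Pi.single i₂.succ 1 with hx
  have hx0 : x ≠ 0 := by
    intro h0
    have := congrFun h0 i₂.succ
    rw [hx, Pi.single_eq_same] at this
    exact one_ne_zero this
  have h1 : (LN α *ᵥ iR x) i₁.succ = 0 := by
    rw [LN_succ]
    have e1 : iR x 0 = 0 := by
      rw [iR, hx, Pi.single_eq_of_ne (Fin.succ_ne_zero i₂).symm, Int.cast_zero]
    have e2 : iR x i₁.succ = 0 := by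
      rw [iR, hx, Pi.single_eq_of_ne (fun h => h12 (Fin.succ_inj.1 h)), Int.cast_zero]
    rw [e1, e2]
    ring
  have h2 : (LN α *ᵥ iR x) i₁.succ = P i₁.succ i₁.succ * (h₁ *ᵥ iR x) i₁.succ := by
    conv_lhs => rw [hg]
    rw [← mulVec_mulVec]
    exact shape_J hP hk _
  have h3 : (h₁ *ᵥ iR x) i₁.succ = 0 := by
    rw [h1] at h2
    exact (mul_eq_zero.1 h2.symm).resolve_left (shape_diag_ne hP hPdet _)
  have h4 := hnu x hx0
  rw [FF_eq, Finset.prod_eq_zero (Finset.mem_univ _) h3, abs_zero] at h4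
  exact absurd h4 (not_le.2 hν₁)

end Pool.Agent.R750.CV
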